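import Pool.Agent.H26.SIF.Defs
import Pool.Agent.H26.SIF.Constr

/-!
MP_008206_co: a bound for the gap which depends only on `n - k`.
-/

namespace SIF
open Finset

variable {n k : ℕ} {A : Fin n → Fin n → Bool}

theorem ctx_square {d : ℤ} {r : Fin n} (h : Ctx A k d r) (hk : 2 ≤ k) (hkn : k ≤ n) :
    O A ≤ conj n k ∨ ∃ t : ℤ, 1 ≤ t ∧ O A - conj n k ≤ t * ((n : ℤ) - k - 1 - 2 * t) := by
  have hkz : (2 : ℤ) ≤ k := by exact_mod_cast hk
  have hknz : (k : ℤ) ≤ n := by exact_mod_cast hkn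
  have hd0 : 0 ≤ d := by rw [← h.rr]; exact rowsum_nonneg r univ
  obtain ⟨x, hx⟩ : ∃ x : ℤ, x = n - k := ⟨_, rfl⟩
  obtain ⟨t, ht⟩ : ∃ t : ℤ, t = x + 1 - d := ⟨_, rfl⟩
  obtain ⟨D, hD⟩ : ∃ D : ℤ, D = O A - conj n k := ⟨_, rfl⟩
  have hn : (n : ℤ) = k + x := by omega
  have hx0 : 0 ≤ x := by omega
  have hd : d = x + 1 - t := by omega
  have hconj : conj n k = k + 3 * x + x ^ 2 := by
    unfold conj; rw [hn]; ring
  have hO : O A = D + (k + 3 * x + x ^ 2) := by rw [hD, hconj]; ring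
  by_cases hd1 : 1 ≤ d
  · obtain ⟨c, hA⟩ := exists_one' (A := A) (r := r) (by rw [h.rr]; exact hd1)
    obtain ⟨R, C, hr, hc, hI⟩ := h.sf r c hA
    have ht0 : 0 ≤ t := by
      have h1 := card_T h hI hr hc hA
      have h2 : (0 : ℤ) ≤ ((Z A r \ C).card : ℤ) := Int.natCast_nonneg _
      omega
    have n1 := N1d h hI hr hc hA
    have n2 := N2 h hI hr hc hA
    obtain ⟨v, hv⟩ : ∃ v : ℤ, v = ((Un A k r).card : ℤ) := ⟨_, rfl⟩
    have hv0 : 0 ≤ v := by rw [hv]; exact Int.natCast_nonneg _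
    rw [← hv] at n1 n2
    rw [hO, hn, hd] at n1 n2
    have n1' : D ≤ -t + v * (x - 2 * t) := by nlinarith
    have n2' : D ≤ t * (x - t) - v * (t + 1) := by nlinarith
    by_cases hDp : D ≤ 0
    · left; omega
    · right
      have ht1 : 1 ≤ t := by
        by_contra hc'
        have : t = 0 := by omega
        subst this
        nlinarith
      refine ⟨t, ht1, ?_⟩
      rw [← hD]
      have hx' : (n : ℤ) - k - 1 - 2 * t = x - 1 - 2 * t := by omega
      rw [hx']
      rcases le_total v t with hvt | hvt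
      · have hxt : 0 ≤ x - 2 * t := by
          by_contra hc'
          nlinarith
        nlinarith
      · nlinarith
  · left
    have hd0' : d = 0 := by omega
    have hO0 : O A ≤ 0 := by
      have := trivial_bound h
      rw [hd0'] at this
      simpa using this
    have hc0 : 0 ≤ conj n k := by rw [hconj]; positivity
    omega

/-- The number of ones exceeds the conjectured value by at most `(n - k - 1)² / 8`. -/
theorem square (hk : 2 ≤ k) (hkn : k ≤ n) (hA : SF A k) :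
    O A ≤ conj n k ∨ ∃ t : ℤ, 1 ≤ t ∧ O A - conj n k ≤ t * ((n : ℤ) - k - 1 - 2 * t) := by
  have hne : (univ : Finset (Fin n)).Nonempty := ⟨⟨0, by omega⟩, Finset.mem_univ _⟩
  obtain ⟨r, _, hr⟩ := Finset.exists_max_image univ (fun i => ∑ j, aa A i j) hne
  obtain ⟨c, _, hc⟩ := Finset.exists_max_image univ (fun j => ∑ i, aa A i j) hne
  rcases le_total (∑ i, aa A i c) (∑ j, aa A r j) with hle | hle
  · have hctx : Ctx A k (∑ j, aa A r j) r :=
      ⟨hA, fun i => hr i (Finset.mem_univ i), fun j => (hc j (Finset.mem_univ j)).trans hle, rfl⟩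
    exact ctx_square hctx hk hkn
  · have hctx : Ctx (fun i j => A j i) k (∑ i, aa A i c) c :=
      ⟨hA.tr, fun j => hc j (Finset.mem_univ j), fun i => (hr i (Finset.mem_univ i)).trans hle, rfl⟩
    have := ctx_square hctx hk hkn
    have hO : O (fun i j => A j i) = O A := by unfold O; rw [S_tr]
    rw [hO] at this
    exact this

theorem gap_square (hk : 2 ≤ k) (hkn : k ≤ n) :
    8 * ((maxOnes n (idMat k) : ℤ) - ((n : ℤ) ^ 2 - (2 * k - 3) * n + k ^ 2 - 2 * k)) ≤
      ((n : ℤ) - k - 1) ^ 2 := by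
  obtain ⟨⟨A, hA, hAm⟩, hmax⟩ := maxOnes_spec (n := n) (idMat k)
  have hup := square hk hkn (SF_of_strong hA)
  rw [← ones_eq, hAm] at hup
  unfold conj at hup
  rcases hup with h | ⟨t, ht, h⟩
  · have h1 := sq_nonneg ((n : ℤ) - k - 1)
    linarith
  · have h1 := sq_nonneg ((n : ℤ) - k - 1 - 4 * t)
    nlinarith

end SIF
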